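import Pool.Agent.H752R3.SierpBasics

/-!
Under CH no Sierpiński set is productively Hurewicz: for every Sierpiński set `S` there is a
Sierpiński set `Y` such that `S × Y` is not even Menger.
-/

namespace Pool.Agent.Results.MP_ed4d4f_gt.NoSierpinskiCH

open Set Filter Cardinal MeasureTheory Pool.Agent.H752R3

/-- Productively Hurewicz, with the factor ranging over all Tychonoff spaces. -/
def ProductivelyHurewicz (X : Type) [TopologicalSpace X] : Prop :=
  ∀ (Y : Type) [TopologicalSpace Y] [T35Space Y], HurewiczSp Y → HurewiczSp (X × Y)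

theorem HurewiczSp.menger {Z : Type*} [TopologicalSpace Z] (h : HurewiczSp Z) : MengerSp Z := by
  intro U hU
  obtain ⟨F, hF1, hF2⟩ := h U hU
  refine ⟨F, hF1, ?_⟩
  rw [eq_univ_iff_forall]
  intro z
  obtain ⟨n, hn⟩ := (hF2 z).exists
  exact mem_iUnion.2 ⟨n, hn⟩

theorem card_null_measurable :
    #{N : Set ℝ // MeasurableSet N ∧ volume N = 0} ≤ 𝔠 := by
  have h1 : #{t : Set ℝ | MeasurableSet t} ≤ 𝔠 := by
    have h2 := MeasurableSpace.cardinal_measurableSet_le_continuum
      (s := MeasurableSpace.countableGeneratingSet ℝ)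
      ((MeasurableSpace.countable_countableGeneratingSet (α := ℝ)).le_aleph0.trans
        Cardinal.aleph0_le_continuum)
    rwa [MeasurableSpace.generateFrom_countableGeneratingSet] at h2
  refine le_trans ?_ h1
  exact Cardinal.mk_le_of_injective (f := fun N : {N : Set ℝ // MeasurableSet N ∧ volume N = 0} =>
    (⟨N.1, N.2.1⟩ : {t : Set ℝ | MeasurableSet t})) (fun a b h => Subtype.ext (by
      have := congrArg Subtype.val h
      exact this))

/-- **Under CH, no Sierpiński set is productively Hurewicz**; in fact the witness can be taken to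
be a Sierpiński set of reals, and the product is not even Menger. -/
theorem result (CH : (ℵ₁ : Cardinal.{0}) = 𝔠) (S : Set ℝ) (hS : SierpinskiSet S) :
    ¬ ProductivelyHurewicz S ∧
      ∃ Y : Set ℝ, SierpinskiSet Y ∧ HurewiczSp Y ∧ ¬ MengerSp (S × Y) := by
  classical
  suffices h : ∃ Y : Set ℝ, SierpinskiSet Y ∧ HurewiczSp Y ∧ ¬ MengerSp (S × Y) by
    refine ⟨fun hp => ?_, h⟩
    obtain ⟨Y, -, hY, hYM⟩ := h
    exact hYM (HurewiczSp.menger (hp Y hY))
  have hnull : Nonempty {N : Set ℝ // MeasurableSet N ∧ volume N = 0} :=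
    ⟨⟨∅, MeasurableSet.empty, measure_empty⟩⟩
  obtain ⟨e, he⟩ := exists_surjection_omega1 CH (α := ℕ → ℕ) (by simp)
  obtain ⟨N, hN⟩ := exists_surjection_omega1 CH
    (α := {N : Set ℝ // MeasurableSet N ∧ volume N = 0}) card_null_measurable
  let Q : Set ℝ := rho '' {z | FinSupp z}
  have hQ : Q.Countable := by
    have : {z : ℕ → Bool | FinSupp z} = ⋃ k, range (extB k) := by
      ext z
      simp only [mem_ofPred_eq, mem_iUnion, mem_range]
      constructor
      · rintro ⟨k, hk⟩
        refine ⟨k, fun i => z i, ?_⟩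
        ext m
        by_cases h : m < k
        · simp [extB, h]
        · simp [extB, h, hk m (not_lt.1 h)]
      · rintro ⟨k, s, rfl⟩
        exact finSupp_extB k s
    have h2 : {z : ℕ → Bool | FinSupp z}.Countable := by
      rw [this]
      exact countable_iUnion fun k => Set.countable_range _
    exact h2.image _
  -- the points
  have hstep : ∀ a, ∃ y, (∀ b ≤ a, y ∉ (N b).1) ∧ (∀ s ∈ S, s + y ∉ Q) ∧
      ∃ s ∈ S, ∃ f : ℕ → ℕ, (∀ n, e a n ≤ f n) ∧ s + y = rho (chi f) := by
    intro a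
    have hcount : (Set.Iic a).Countable := by
      rw [← Set.Iio_insert]
      exact (countable_Iio_omega1 a).insert a
    have hU0 : volume (⋃ b ∈ Set.Iic a, (N b).1) = 0 :=
      (measure_biUnion_null_iff hcount).2 fun b _ => (N b).2.2
    have hUm : MeasurableSet (⋃ b ∈ Set.Iic a, (N b).1) :=
      MeasurableSet.biUnion hcount fun b _ => (N b).2.1
    obtain ⟨y, hy1, hy2, hy3⟩ := sierpinski_step hS hU0 hUm hQ (e a)
    exact ⟨y, fun b hb h => hy1 (mem_iUnion₂.2 ⟨b, hb, h⟩), hy2, hy3⟩
  choose y hyN hyQ hyS using hstep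
  have hYnull : ∀ M : Set ℝ, volume M = 0 → (range y ∩ M).Countable := by
    intro M hM
    obtain ⟨M', hMM', hM'm, hM'0⟩ := exists_measurable_superset_of_null hM
    obtain ⟨a, ha⟩ := hN ⟨M', hM'm, hM'0⟩
    refine ((countable_Iio_omega1 a).image y).mono ?_
    rintro _ ⟨⟨b, rfl⟩, hb⟩
    refine ⟨b, ?_, rfl⟩
    by_contra hcon
    have h1 := hyN b a (not_lt.1 hcon)
    rw [ha] at h1
    exact h1 (hMM' hb)
  refine ⟨range y, ⟨?_, hYnull⟩, hurewicz_of_null_countable hYnull, ?_⟩
  · intro hc
    have h0 : volume (range y) = 0 := hc.measure_zero _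
    obtain ⟨a, ha⟩ := hN ⟨range y, hc.measurableSet, h0⟩
    have h1 := hyN a a (le_refl a)
    rw [ha] at h1
    exact h1 ⟨a, rfl⟩
  · intro hmenger
    let K : ℕ → ℕ → Set ℝ := fun n k => rho '' {x | cnt k x ≤ n}
    have hKc : ∀ n k, IsClosed (K n k) := by
      intro n k
      apply IsCompact.isClosed
      apply IsCompact.image _ continuous_rho
      apply IsClosed.isCompact
      exact (isClosed_discrete (Set.Iic n)).preimage (continuous_cnt k)
    have hKanti : ∀ n k l, k ≤ l → K n l ⊆ K n k := by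
      intro n k l hkl
      apply image_mono
      intro x hx
      exact (cnt_mono hkl x).trans hx
    let V : ℕ → ℕ → Set (S × range y) := fun n k => {z | (z.1 : ℝ) + z.2 ∉ K n k}
    have hVo : ∀ n k, IsOpen (V n k) := by
      intro n k
      have hc : Continuous fun z : S × range y => (z.1 : ℝ) + z.2 :=
        (continuous_subtype_val.comp continuous_fst).add
          (continuous_subtype_val.comp continuous_snd)
      exact (hKc n k).isOpen_compl.preimage hc
    obtain ⟨F, hF1, hF2⟩ := hmenger.frequently (fun n => range (V n)) (by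
      intro n
      refine ⟨?_, ?_⟩
      · rintro _ ⟨k, rfl⟩
        exact hVo n k
      · rw [eq_univ_iff_forall]
        rintro ⟨⟨s, hs⟩, ⟨_, a, rfl⟩⟩
        by_cases hx : ∃ x, rho x = s + y a
        · obtain ⟨x, hx⟩ := hx
          have hxf : ¬ FinSupp x := fun h => hyQ a s hs ⟨x, h, hx⟩
          obtain ⟨k, hk⟩ := exists_lt_cnt_of_not_finSupp hxf n
          refine ⟨_, ⟨k, rfl⟩, ?_⟩
          rintro ⟨x', hx'1, hx'2⟩
          have : x' = x := rho_injective (hx'2.trans hx.symm)
          subst this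
          have h3 : cnt k x' ≤ n := hx'1
          omega
        · refine ⟨_, ⟨0, rfl⟩, ?_⟩
          rintro ⟨x', -, hx'2⟩
          exact hx ⟨x', hx'2⟩)
    have hg : ∀ n, ∃ g, ∀ z ∈ ⋃₀ F n, (z.1 : ℝ) + z.2 ∉ K n g := by
      intro n
      obtain ⟨E, -, hE2, hE3⟩ : ∃ E ⊆ (Set.univ : Set ℕ), E.Finite ∧ V n '' E = F n := by
        have := Set.exists_subset_image_finite_and (f := V n) (s := Set.univ)
          (p := fun t => t = F n)
        obtain ⟨E', h1, h2, h3⟩ := this.1 ⟨F n, by rw [image_univ]; exact (hF1 n).1,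
          (hF1 n).2, rfl⟩
        exact ⟨E', h1, h2, h3⟩
      obtain ⟨g, hg⟩ := hE2.bddAbove
      refine ⟨g, ?_⟩
      rintro z ⟨u, hu, hz⟩
      rw [← hE3] at hu
      obtain ⟨k, hk, rfl⟩ := hu
      intro h1
      exact hz (hKanti n k g (hg hk) h1)
    choose g hg using hg
    obtain ⟨a, ha⟩ := he g
    obtain ⟨s, hs, f, hf1, hf2⟩ := hyS a
    rw [ha] at hf1
    obtain ⟨n, hn⟩ := (hF2 (⟨s, hs⟩, ⟨y a, a, rfl⟩)).exists
    apply hg n _ hn
    refine ⟨chi f, ?_, hf2.symm⟩
    have h3 := le_psum f (le_refl n)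
    have h4 := hf1 n
    exact cnt_chi_le (by omega)

end Pool.Agent.Results.MP_ed4d4f_gt.NoSierpinskiCH
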